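import Mathlib

/-!
# `k`-equilateral polygons: definitions, and polygons obtained from colourings
-/

namespace Pool.Agent.H50.KEquilateral

open Module

/-- A closed `n`-gon in `E^d`, with vertices indexed by the integers modulo `n`, is
`k`-equilateral if for each `j = 1, ..., k` the distance between the `i`-th and the `(i+j)`-th
vertex does not depend on `i`. -/
def IsKEquilateral {n d : ℕ} (k : ℕ) (P : ZMod n → EuclideanSpace ℝ (Fin d)) : Prop :=
  ∀ j : ℕ, 1 ≤ j → j ≤ k → ∃ c : ℝ, ∀ i : ZMod n, dist (P i) (P (i + (j : ZMod n))) = c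

/-- The `n`-gon in `E^d` spans `E^d`: the affine hull of its vertices is the whole space. -/
def Spans {n d : ℕ} (P : ZMod n → EuclideanSpace ℝ (Fin d)) : Prop :=
  affineSpan ℝ (Set.range P) = ⊤

/-- A polygon in a Euclidean space whose affine hull has dimension `D` can be moved
isometrically onto a spanning polygon of `E^D`. -/
theorem exists_spanning {V : Type*} [NormedAddCommGroup V] [InnerProductSpace ℝ V]
    [FiniteDimensional ℝ V] {n : ℕ} [NeZero n] (Q : ZMod n → V) (D : ℕ)
    (hD : finrank ℝ (vectorSpan ℝ (Set.range Q)) = D) :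
    ∃ P : ZMod n → EuclideanSpace ℝ (Fin D), (∀ i j, dist (P i) (P j) = dist (Q i) (Q j)) ∧
      Spans P := by
  subst hD
  set W := vectorSpan ℝ (Set.range Q) with hW
  have hmem : ∀ i, Q i - Q 0 ∈ W := fun i =>
    vsub_mem_vectorSpan ℝ (Set.mem_range_self i) (Set.mem_range_self 0)
  let b := stdOrthonormalBasis ℝ W
  refine ⟨fun i => b.repr ⟨Q i - Q 0, hmem i⟩, ?_, ?_⟩
  · intro i j
    rw [b.repr.dist_map, Subtype.dist_eq, dist_sub_right]
  · unfold Spans
    rw [AffineSubspace.affineSpan_eq_top_iff_vectorSpan_eq_top_of_nonempty _ _ _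
      (Set.range_nonempty _), vectorSpan_range_eq_span_range_vsub_right ℝ _ (0 : ZMod n)]
    have h1 : Submodule.span ℝ (Set.range fun i : ZMod n =>
        (⟨Q i - Q 0, hmem i⟩ : W)) = ⊤ := by
      rw [← Submodule.map_injective_of_injective W.subtype_injective |>.eq_iff,
        Submodule.map_span, Submodule.map_subtype_top, ← Set.range_comp]
      exact (vectorSpan_range_eq_span_range_vsub_right ℝ Q (0 : ZMod n)).symm
    have h2 : (fun i : ZMod n => b.repr ⟨Q i - Q 0, hmem i⟩ -ᵥ b.repr ⟨Q 0 - Q 0, hmem 0⟩) =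
        (b.repr.toLinearEquiv.toLinearMap ∘ fun i : ZMod n => (⟨Q i - Q 0, hmem i⟩ : W)) := by
      funext i
      have h3 : (⟨Q 0 - Q 0, hmem 0⟩ : W) = 0 := by
        apply Subtype.ext; simp
      rw [h3, map_zero, vsub_eq_sub, sub_zero]
      rfl
    rw [h2, Set.range_comp, ← Submodule.map_span, h1, Submodule.map_top]
    exact LinearEquiv.range _

/-- Vertices of equal colour are more than `K` steps apart. -/
def IsColoring {n m : ℕ} (K : ℕ) (c : ZMod n → Fin m) : Prop :=
  ∀ i : ZMod n, ∀ j : ℕ, 1 ≤ j → j ≤ K → c i ≠ c (i + (j : ZMod n))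

/-- From a colouring in which two given pairs of vertices have equal colours one obtains such a
colouring that uses all colours, if there are at most `n - 2` colours. -/
theorem exists_surjective_coloring {n m K : ℕ} [NeZero n] (hm : m + 2 ≤ n)
    (i₁ i₁' i₂ i₂' : ZMod n) (h1 : i₁ ≠ i₁') (h2 : i₂ ≠ i₂')
    (hK : ∃ c : ZMod n → Fin m, IsColoring K c ∧ c i₁ = c i₁' ∧ c i₂ = c i₂' ∧ c i₁ ≠ c i₂) :
    ∃ c : ZMod n → Fin m, IsColoring K c ∧ c i₁ = c i₁' ∧ c i₂ = c i₂' ∧ c i₁ ≠ c i₂ ∧
      Function.Surjective c := by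
  classical
  let S : Finset (ZMod n → Fin m) := Finset.univ.filter
    (fun c => IsColoring K c ∧ c i₁ = c i₁' ∧ c i₂ = c i₂' ∧ c i₁ ≠ c i₂)
  have hS : S.Nonempty := by
    obtain ⟨c, hc⟩ := hK
    exact ⟨c, Finset.mem_filter.2 ⟨Finset.mem_univ _, hc⟩⟩
  obtain ⟨c, hcS, hmax⟩ := Finset.exists_max_image S
    (fun c => (Finset.univ.image c).card) hS
  have hc := (Finset.mem_filter.1 hcS).2
  refine ⟨c, hc.1, hc.2.1, hc.2.2.1, hc.2.2.2, ?_⟩
  by_contra hsurj
  rw [Function.Surjective] at hsurj
  push Not at hsurj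
  obtain ⟨a, ha⟩ := hsurj
  have hne12 : i₁ ≠ i₂ := fun h => hc.2.2.2 (by rw [h])
  have hne12' : i₁ ≠ i₂' := fun h => hc.2.2.2 (by rw [h, hc.2.2.1])
  have hne1'2 : i₁' ≠ i₂ := fun h => hc.2.2.2 (by rw [hc.2.1, h])
  have hne1'2' : i₁' ≠ i₂' := fun h => hc.2.2.2 (by rw [hc.2.1, h, hc.2.2.1])
  -- a vertex that can be recoloured
  have hex : ∃ v w : ZMod n, v ≠ w ∧ c v = c w ∧ v ≠ i₁ ∧ v ≠ i₁' ∧ v ≠ i₂ ∧ v ≠ i₂' := by
    by_contra hno
    push Not at hno
    have hinj : Set.InjOn c ((Finset.univ.erase i₁').erase i₂' : Finset (ZMod n)) := by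
      intro x hx y hy hxy
      rw [Finset.mem_coe, Finset.mem_erase, Finset.mem_erase] at hx hy
      by_contra hxy'
      have hx' : x = i₁ ∨ x = i₂ := by
        by_contra hh
        push Not at hh
        exact hx.1 (hno x y hxy' hxy hh.1 hx.2.1 hh.2)
      have hy' : y = i₁ ∨ y = i₂ := by
        by_contra hh
        push Not at hh
        exact hy.1 (hno y x (Ne.symm hxy') hxy.symm hh.1 hy.2.1 hh.2)
      rcases hx' with rfl | rfl <;> rcases hy' with rfl | rfl
      · exact hxy' rfl
      · exact hc.2.2.2 hxy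
      · exact hc.2.2.2 hxy.symm
      · exact hxy' rfl
    have hcard := Finset.card_le_card_of_injOn (s := (Finset.univ.erase i₁').erase i₂')
      (t := Finset.univ.erase a) c (fun x _ => by
        rw [Finset.mem_coe, Finset.mem_erase]
        exact ⟨ha x, Finset.mem_univ _⟩) hinj
    rw [Finset.card_erase_of_mem (by simp [hne1'2'.symm]), Finset.card_erase_of_mem (by simp),
      Finset.card_erase_of_mem (by simp), Finset.card_univ, Finset.card_univ, ZMod.card,
      Fintype.card_fin] at hcard
    have hmpos : 0 < m := Fin.pos a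
    omega
  obtain ⟨v, w, hvw, hcvw, hv1, hv1', hv2, hv2'⟩ := hex
  have hmem : Function.update c v a ∈ S := by
    rw [Finset.mem_filter]
    refine ⟨Finset.mem_univ _, ?_, ?_, ?_, ?_⟩
    · intro i j hj1 hjK
      have h0 := hc.1 i j hj1 hjK
      by_cases hi : i = v
      · by_cases hi' : i + (j : ZMod n) = v
        · exfalso
          rw [hi', hi] at h0
          exact h0 rfl
        · rw [Function.update_of_ne hi', hi, Function.update_self]
          exact (ha _).symm
      · by_cases hi' : i + (j : ZMod n) = v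
        · rw [hi', Function.update_self, Function.update_of_ne hi]
          exact ha _
        · rw [Function.update_of_ne hi, Function.update_of_ne hi']
          exact h0
    · rw [Function.update_of_ne hv1.symm, Function.update_of_ne hv1'.symm]; exact hc.2.1
    · rw [Function.update_of_ne hv2.symm, Function.update_of_ne hv2'.symm]; exact hc.2.2.1
    · rw [Function.update_of_ne hv1.symm, Function.update_of_ne hv2.symm]; exact hc.2.2.2
  have hle := hmax _ hmem
  have hsub : insert a (Finset.univ.image c) ⊆ Finset.univ.image (Function.update c v a) := by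
    intro x hx
    rw [Finset.mem_insert] at hx
    rw [Finset.mem_image]
    rcases hx with rfl | hx
    · exact ⟨v, Finset.mem_univ _, Function.update_self _ _ _⟩
    · rw [Finset.mem_image] at hx
      obtain ⟨u, _, rfl⟩ := hx
      by_cases hu : u = v
      · refine ⟨w, Finset.mem_univ _, ?_⟩
        rw [Function.update_of_ne hvw.symm, hu, hcvw]
      · exact ⟨u, Finset.mem_univ _, Function.update_of_ne hu _ _⟩
  have hnot : a ∉ Finset.univ.image c := by
    rw [Finset.mem_image]
    rintro ⟨u, _, hu⟩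
    exact ha u hu
  have := Finset.card_le_card hsub
  rw [Finset.card_insert_of_notMem hnot] at this
  omega

/-- The basic colouring: cut the cycle into `q` nearly equal blocks and colour each block by
`0, 1, 2, ...`. -/
theorem exists_block_coloring {n m K q : ℕ} [NeZero n] (hK : 1 ≤ K) (hq : 2 ≤ q)
    (h1 : q * (K + 1) ≤ n) (h2 : n ≤ q * m) :
    ∃ s : ℕ, 0 < s ∧ s + 1 < n ∧ ∃ c : ZMod n → Fin m, IsColoring K c ∧
      c ((0 : ℕ) : ZMod n) = c ((s : ℕ) : ZMod n) ∧
      c ((1 : ℕ) : ZMod n) = c ((s + 1 : ℕ) : ZMod n) ∧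
      c ((0 : ℕ) : ZMod n) ≠ c ((1 : ℕ) : ZMod n) := by
  have hn : 0 < n := Nat.pos_of_ne_zero (NeZero.ne n)
  have hq0 : 0 < q := by omega
  -- block starts
  let st : ℕ → ℕ := fun t => t * n / q
  have hst0 : st 0 = 0 := by simp [st]
  have hstq : st q = n := by
    simp only [st]
    rw [Nat.mul_div_cancel_left _ hq0]
  have hstep : ∀ t, st t + (K + 1) ≤ st (t + 1) := by
    intro t
    simp only [st]
    rw [Nat.le_div_iff_mul_le hq0]
    have h3 := Nat.div_mul_le_self (t * n) q
    calc (t * n / q + (K + 1)) * q = t * n / q * q + q * (K + 1) := by ring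
      _ ≤ t * n + n := by omega
      _ = (t + 1) * n := by ring
  have hstep' : ∀ t, st (t + 1) ≤ st t + m := by
    intro t
    simp only [st]
    rw [← Nat.add_mul_div_left _ _ hq0]
    apply Nat.div_le_div_right
    calc (t + 1) * n = t * n + n := by ring
      _ ≤ t * n + q * m := by omega
  have hmono : ∀ t t', t < t' → st t + (K + 1) ≤ st t' := by
    intro t t' h
    induction t', h using Nat.le_induction with
    | base => exact hstep t
    | succ t' _ ih => exact ih.trans ((Nat.le_add_right _ _).trans (hstep t'))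
  have hmono' : ∀ t t', t ≤ t' → st t ≤ st t' := by
    intro t t' h
    rcases h.eq_or_lt with rfl | h
    · exact le_rfl
    · exact (Nat.le_add_right _ _).trans (hmono t t' h)
  -- the block of `i`
  have hblock : ∀ i : ℕ, i < n → ∃ t, t < q ∧ st t ≤ i ∧ i < st (t + 1) := by
    intro i hi
    have hex : ∃ t, i < st t := ⟨q, by rw [hstq]; exact hi⟩
    classical
    have hspec := Nat.find_spec hex
    have hpos : 0 < Nat.find hex := by
      rw [Nat.pos_iff_ne_zero]
      intro h0
      rw [h0, hst0] at hspec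
      omega
    obtain ⟨t, ht⟩ : ∃ t, Nat.find hex = t + 1 := ⟨Nat.find hex - 1, by omega⟩
    have hle : Nat.find hex ≤ q := Nat.find_min' hex (by rw [hstq]; exact hi)
    refine ⟨t, by omega, ?_, ?_⟩
    · by_contra hlt
      exact Nat.find_min hex (m := t) (by omega) (by omega)
    · rw [← ht]; exact hspec
  choose bl hbl using hblock
  have huniq : ∀ (i : ℕ) (hi : i < n) (t : ℕ), st t ≤ i → i < st (t + 1) → bl i hi = t := by
    intro i hi t ht1 ht2
    rcases lt_trichotomy (bl i hi) t with h | h | h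
    · have := hmono' (bl i hi + 1) t (by omega)
      have := (hbl i hi).2.2
      omega
    · exact h
    · have := hmono' (t + 1) (bl i hi) (by omega)
      have := (hbl i hi).2.1
      omega
  have hval : ∀ i : ZMod n, i.val < n := fun i => ZMod.val_lt i
  have hlt : ∀ i : ZMod n, i.val - st (bl i.val (hval i)) < m := by
    intro i
    have h3 := hbl i.val (hval i)
    have h4 := hstep' (bl i.val (hval i))
    omega
  let c : ZMod n → Fin m := fun i => ⟨i.val - st (bl i.val (hval i)), hlt i⟩
  have hcval : ∀ i : ZMod n, ((c i : Fin m) : ℕ) = i.val - st (bl i.val (hval i)) := fun i => rfl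
  -- two numbers of the same colour are far apart
  have hfar : ∀ (a b : ℕ) (ha : a < n) (hb : b < n), a < b →
      a - st (bl a ha) = b - st (bl b hb) → K + 1 ≤ b - a ∧ K + 1 ≤ n - (b - a) := by
    intro a b ha hb hab heq
    have h3 := hbl a ha
    have h4 := hbl b hb
    have h5 : bl a ha < bl b hb := by
      by_contra hge
      have h6 := hmono' (bl b hb) (bl a ha) (by omega)
      omega
    have h6 := hmono _ _ h5
    have h7 := hmono (bl b hb) q h4.1
    rw [hstq] at h7
    constructor <;> omega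
  have hcol : IsColoring K c := by
    intro i j hj1 hjK heq
    have hjn : j < n := by nlinarith
    have hjval : ((j : ZMod n)).val = j := ZMod.val_cast_of_lt hjn
    have hadd := ZMod.val_add i (j : ZMod n)
    rw [hjval] at hadd
    have h3 := hval i
    have h4 := hval (i + (j : ZMod n))
    have heq' : i.val - st (bl i.val (hval i)) =
        (i + (j : ZMod n)).val - st (bl (i + (j : ZMod n)).val (hval _)) := by
      have := congrArg (fun x : Fin m => (x : ℕ)) heq
      exact this
    rcases lt_or_ge (i.val + j) n with h | h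
    · rw [Nat.mod_eq_of_lt h] at hadd
      have := hfar _ _ h3 h4 (by omega) heq'
      omega
    · have h5 : (i.val + j) % n = i.val + j - n := by
        rw [Nat.mod_eq_sub_mod h, Nat.mod_eq_of_lt (by omega)]
      rw [h5] at hadd
      have := hfar _ _ h4 h3 (by omega) heq'.symm
      omega
  have hs1 : K + 1 ≤ st 1 := by have := hstep 0; rw [hst0, zero_add, zero_add] at this; omega
  have hs2 : st 1 + (K + 1) ≤ st 2 := hstep 1
  have hs3 : st 2 ≤ n := by rw [← hstq]; exact hmono' 2 q hq
  have hcast : ∀ a : ℕ, a < n → ((a : ℕ) : ZMod n).val = a := fun a ha => ZMod.val_cast_of_lt ha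
  have hc0 : ((c ((0 : ℕ) : ZMod n) : Fin m) : ℕ) = 0 := by
    rw [hcval]
    have h3 := hcast 0 hn
    omega
  have hblk : ∀ (a : ℕ) (ha : a < n) (t : ℕ), st t ≤ a → a < st (t + 1) →
      ((c (a : ZMod n) : Fin m) : ℕ) = a - st t := by
    intro a ha t ht1 ht2
    rw [hcval]
    have h3 := hcast a ha
    have h4 : bl ((a : ℕ) : ZMod n).val (hval _) = t := by
      apply huniq <;> rw [h3] <;> assumption
    rw [h4, h3]
  have hc1 : ((c ((1 : ℕ) : ZMod n) : Fin m) : ℕ) = 1 := by
    rw [hblk 1 (by omega) 0 (by omega) (by rw [zero_add]; omega), hst0]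
  have hcs : ((c ((st 1 : ℕ) : ZMod n) : Fin m) : ℕ) = 0 := by
    rw [hblk (st 1) (by omega) 1 le_rfl (by show st 1 < st 2; omega)]
    omega
  have hcs1 : ((c ((st 1 + 1 : ℕ) : ZMod n) : Fin m) : ℕ) = 1 := by
    rw [hblk (st 1 + 1) (by omega) 1 (by omega) (by show st 1 + 1 < st 2; omega)]
    omega
  refine ⟨st 1, by omega, by omega, c, hcol, ?_, ?_, ?_⟩
  · exact Fin.ext (by rw [hc0, hcs])
  · exact Fin.ext (by rw [hc1, hcs1])
  · intro h
    have := congrArg (fun x : Fin m => (x : ℕ)) h
    simp only [hc0, hc1] at this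
    omega

/-- The distance between two different vectors of the standard basis. -/
theorem dist_single {m : ℕ} {a b : Fin m} (h : a ≠ b) :
    dist (EuclideanSpace.single a (1 : ℝ)) (EuclideanSpace.single b (1 : ℝ)) = √2 := by
  rw [dist_eq_norm, eq_comm, Real.sqrt_eq_iff_mul_self_eq (by norm_num) (norm_nonneg _),
    ← sq, norm_sub_sq_real, EuclideanSpace.inner_single_left, PiLp.single_apply,
    if_neg h]
  simp
  norm_num

/-- Polygons whose vertices are vertices of a regular simplex. -/
theorem exists_polygon_of_coloring {n m K : ℕ} [NeZero n] (c : ZMod n → Fin (m + 1))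
    (hc : IsColoring K c) (hs : Function.Surjective c) :
    ∃ P : ZMod n → EuclideanSpace ℝ (Fin m), IsKEquilateral K P ∧ Spans P := by
  let e : Fin (m + 1) → EuclideanSpace ℝ (Fin (m + 1)) := fun a => EuclideanSpace.single a 1
  have hrange : Set.range (fun i => e (c i)) = Set.range e := hs.range_comp e
  have hind : AffineIndependent ℝ e := by
    have h1 : LinearIndependent ℝ e := by
      have h2 := (EuclideanSpace.basisFun (Fin (m + 1)) ℝ).toBasis.linearIndependent
      have h3 : e = ⇑(EuclideanSpace.basisFun (Fin (m + 1)) ℝ).toBasis := by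
        funext a
        simp [e]
      rw [h3]
      exact h2
    exact h1.affineIndependent
  have hfin : finrank ℝ (vectorSpan ℝ (Set.range fun i => e (c i))) = m := by
    rw [hrange]
    exact hind.finrank_vectorSpan (by simp)
  obtain ⟨P, hP, hspan⟩ := exists_spanning (fun i => e (c i)) m hfin
  refine ⟨P, ?_, hspan⟩
  intro j hj1 hjK
  exact ⟨√2, fun i => by rw [hP]; exact dist_single (hc i j hj1 hjK)⟩

/-- The standard additive character has a non-real value at `1` if `n ≥ 3`. -/
theorem stdAddChar_one_im_ne {n : ℕ} [NeZero n] (hn : 3 ≤ n) :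
    (ZMod.stdAddChar (1 : ZMod n)).im ≠ 0 := by
  intro him
  have hnorm : ‖ZMod.stdAddChar (1 : ZMod n)‖ = 1 := by
    rw [ZMod.stdAddChar_apply]; exact Circle.norm_coe _
  have hsq : ZMod.stdAddChar (1 : ZMod n) * ZMod.stdAddChar (1 : ZMod n) = 1 := by
    have h1 : (ZMod.stdAddChar (1 : ZMod n)) = ((ZMod.stdAddChar (1 : ZMod n)).re : ℂ) := by
      apply Complex.ext <;> simp [him]
    rw [h1] at hnorm ⊢
    rw [Complex.norm_real, Real.norm_eq_abs] at hnorm
    rw [← Complex.ofReal_mul, ← sq, ← sq_abs, hnorm]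
    simp
  rw [← AddChar.map_add_eq_mul] at hsq
  have h2 : (1 : ZMod n) + 1 = 0 := by
    apply ZMod.injective_stdAddChar
    rw [hsq, AddChar.map_zero_eq_one]
  have h3 : ((2 : ℕ) : ZMod n) = 0 := by
    rw [← h2]; norm_num
  rw [ZMod.natCast_eq_zero_iff] at h3
  have := Nat.le_of_dvd (by norm_num) h3
  omega

/-- Polygons with pairwise distinct vertices: a regular simplex and a regular polygon in
orthogonal spaces. -/
theorem exists_injective_polygon_of_coloring {n m K : ℕ} [NeZero n] (hn : 3 ≤ n)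
    (c : ZMod n → Fin (m + 1)) (hc : IsColoring K c) (hs : Function.Surjective c)
    (s : ZMod n) (hs0 : s ≠ 0) (h0 : c 0 = c s) (h1 : c 1 = c (s + 1)) :
    ∃ P : ZMod n → EuclideanSpace ℝ (Fin (m + 2)), Function.Injective P ∧
      IsKEquilateral K P ∧ Spans P := by
  let χ : AddChar (ZMod n) ℂ := ZMod.stdAddChar
  have hχ : ∀ i, ‖χ i‖ = 1 := fun i => by
    show ‖ZMod.stdAddChar i‖ = 1
    rw [ZMod.stdAddChar_apply]; exact Circle.norm_coe _
  let V := WithLp 2 (EuclideanSpace ℝ (Fin (m + 1)) × ℂ)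
  let e : Fin (m + 1) → EuclideanSpace ℝ (Fin (m + 1)) := fun a => EuclideanSpace.single a 1
  let Q : ZMod n → V := fun i => WithLp.toLp 2 (e (c i), χ i)
  let φ : V →ₗ[ℝ] ℝ :=
    { toFun := fun v => ∑ a, v.fst a
      map_add' := fun v w => by
        show ∑ a, (v.fst + w.fst) a = _
        simp [Finset.sum_add_distrib]
      map_smul' := fun r v => by
        show ∑ a, (r • v.fst) a = _
        simp [Finset.mul_sum] }
  have hφQ : ∀ i, φ (Q i) = 1 := by
    intro i
    show ∑ a, (EuclideanSpace.single (c i) (1 : ℝ)) a = 1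
    simp
  set L : Submodule ℝ V := vectorSpan ℝ (Set.range Q) with hL
  have hsub : ∀ i j, Q i - Q j ∈ L := fun i j =>
    vsub_mem_vectorSpan ℝ (Set.mem_range_self i) (Set.mem_range_self j)
  -- the plane is contained in `L`
  have hχs : χ s ≠ 1 := by
    intro h
    apply hs0
    apply ZMod.injective_stdAddChar
    rw [AddChar.map_zero_eq_one]
    exact h
  have him : (χ 1).im ≠ 0 := stdAddChar_one_im_ne hn
  have hplane : ∀ z : ℂ, (WithLp.toLp 2 ((0 : EuclideanSpace ℝ (Fin (m + 1))), z) : V) ∈ L := by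
    intro z
    have hne : (1 : ℂ) - χ s ≠ 0 := sub_ne_zero.2 (Ne.symm hχs)
    set w : ℂ := z / (1 - χ s) with hw
    set b : ℝ := w.im / (χ 1).im with hb
    set a : ℝ := w.re - b * (χ 1).re with ha
    have hab : (a : ℂ) + b * χ 1 = w := by
      apply Complex.ext
      · simp [ha]
      · simp only [Complex.add_im, Complex.ofReal_im, Complex.mul_im, Complex.ofReal_re, zero_mul,
          add_zero, zero_add, hb]
        field_simp
    have hz : z = a * (1 - χ s) + b * (χ 1 - χ (s + 1)) := by
      rw [AddChar.map_add_eq_mul]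
      have : (a : ℂ) * (1 - χ s) + b * (χ 1 - χ s * χ 1) = (a + b * χ 1) * (1 - χ s) := by ring
      rw [this, hab, hw, div_mul_cancel₀ _ hne]
    have hv : (WithLp.toLp 2 ((0 : EuclideanSpace ℝ (Fin (m + 1))), z) : V) =
        a • (Q 0 - Q s) + b • (Q 1 - Q (s + 1)) := by
      apply (WithLp.equiv 2 _).injective
      refine Prod.ext ?_ ?_
      · show (0 : EuclideanSpace ℝ (Fin (m + 1))) = a • (e (c 0) - e (c s)) +
          b • (e (c 1) - e (c (s + 1)))
        rw [h0, h1]; simp
      · show z = a • (χ 0 - χ s) + b • (χ 1 - χ (s + 1))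
        rw [AddChar.map_zero_eq_one, Complex.real_smul, Complex.real_smul]
        exact hz
    rw [hv]
    exact L.add_mem (L.smul_mem _ (hsub _ _)) (L.smul_mem _ (hsub _ _))
  have hbasis : ∀ a, (WithLp.toLp 2 (e a - e (c 0), (0 : ℂ)) : V) ∈ L := by
    intro a
    obtain ⟨i, rfl⟩ := hs a
    have hv : (WithLp.toLp 2 (e (c i) - e (c 0), (0 : ℂ)) : V) =
        (Q i - Q 0) - WithLp.toLp 2 ((0 : EuclideanSpace ℝ (Fin (m + 1))), χ i - χ 0) := by
      apply (WithLp.equiv 2 _).injective
      refine Prod.ext ?_ ?_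
      · show e (c i) - e (c 0) = (e (c i) - e (c 0)) - 0
        simp
      · show (0 : ℂ) = (χ i - χ 0) - (χ i - χ 0)
        simp
    rw [hv]
    exact L.sub_mem (hsub _ _) (hplane _)
  have hker : L = LinearMap.ker φ := by
    apply le_antisymm
    · rw [hL, vectorSpan_def, Submodule.span_le]
      rintro _ ⟨_, ⟨i, rfl⟩, _, ⟨j, rfl⟩, rfl⟩
      show φ (Q i - Q j) = 0
      rw [map_sub, hφQ, hφQ, sub_self]
    · intro v hv
      have hsum : ∑ a, v.fst a = 0 := hv
      have hdec : v = ∑ a, (v.fst a) • (WithLp.toLp 2 (e a - e (c 0), (0 : ℂ)) : V) +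
          WithLp.toLp 2 ((0 : EuclideanSpace ℝ (Fin (m + 1))), v.snd) := by
        have h3 : ∑ a, (v.fst a) • (WithLp.toLp 2 (e a - e (c 0), (0 : ℂ)) : V) =
            WithLp.toLp 2 (v.fst, (0 : ℂ)) := by
          apply (WithLp.equiv 2 _).injective
          refine Prod.ext ?_ ?_
          · show WithLp.fstₗ 2 ℝ _ _ (∑ a, (v.fst a) •
              (WithLp.toLp 2 (e a - e (c 0), (0 : ℂ)) : V)) = v.fst
            rw [map_sum]
            have h4 : ∀ a, WithLp.fstₗ 2 ℝ _ _ ((v.fst a) •
                (WithLp.toLp 2 (e a - e (c 0), (0 : ℂ)) : V)) =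
                (v.fst a) • e a - (v.fst a) • e (c 0) := by
              intro a
              show (v.fst a) • (e a - e (c 0)) = _
              rw [smul_sub]
            simp only [h4]
            rw [Finset.sum_sub_distrib, ← Finset.sum_smul, hsum, zero_smul, sub_zero]
            ext b
            simp [e, Finset.sum_apply, Pi.single_apply]
          · show WithLp.sndₗ 2 ℝ _ _ (∑ a, (v.fst a) •
              (WithLp.toLp 2 (e a - e (c 0), (0 : ℂ)) : V)) = 0
            rw [map_sum]
            apply Finset.sum_eq_zero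
            intro a _
            show (v.fst a) • (0 : ℂ) = 0
            simp
        rw [h3]
        apply (WithLp.equiv 2 _).injective
        refine Prod.ext ?_ ?_
        · show v.fst = v.fst + 0
          simp
        · show v.snd = 0 + v.snd
          simp
      rw [hdec]
      exact L.add_mem (L.sum_mem fun a _ => L.smul_mem _ (hbasis a)) (hplane _)
  have hfin : finrank ℝ L = m + 2 := by
    have h3 := LinearMap.finrank_range_add_finrank_ker φ
    have h4 : LinearMap.range φ = ⊤ := by
      rw [LinearMap.range_eq_top]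
      intro x
      exact ⟨x • Q 0, by rw [map_smul, hφQ]; simp⟩
    have h5 : finrank ℝ V = m + 1 + 2 := by
      rw [(WithLp.linearEquiv 2 ℝ (EuclideanSpace ℝ (Fin (m + 1)) × ℂ)).finrank_eq,
        Module.finrank_prod, finrank_euclideanSpace, Fintype.card_fin, Complex.finrank_real_complex]
    rw [h4, finrank_top, finrank_self, h5, ← hker] at h3
    omega
  obtain ⟨P, hP, hspan⟩ := exists_spanning Q (m + 2) hfin
  refine ⟨P, ?_, ?_, hspan⟩
  · intro i j hij
    have h3 : dist (Q i) (Q j) = 0 := by rw [← hP, hij, dist_self]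
    have h4 : Q i = Q j := dist_eq_zero.1 h3
    have h5 : χ i = χ j := congrArg (fun v : V => v.snd) h4
    exact ZMod.injective_stdAddChar h5
  · intro j hj1 hjK
    refine ⟨√(√2 ^ 2 + ‖1 - χ (j : ZMod n)‖ ^ 2), fun i => ?_⟩
    rw [hP, WithLp.prod_dist_eq_of_L2]
    have h3 : dist (Q i).fst (Q (i + (j : ZMod n))).fst = √2 := dist_single (hc i j hj1 hjK)
    have h4 : dist (Q i).snd (Q (i + (j : ZMod n))).snd = ‖1 - χ (j : ZMod n)‖ := by
      show dist (χ i) (χ (i + (j : ZMod n))) = _
      rw [dist_eq_norm, AddChar.map_add_eq_mul, ← mul_one_sub, norm_mul, hχ, one_mul]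
    rw [h3, h4]

/-- Polygons from the block colouring with `m + 1` colours. -/
theorem exists_polygon {n m K q : ℕ} (hK : 1 ≤ K) (hq : 2 ≤ q) (h1 : q * (K + 1) ≤ n)
    (h2 : n ≤ q * (m + 1)) (h3 : m + 3 ≤ n) :
    (∃ P : ZMod n → EuclideanSpace ℝ (Fin m), IsKEquilateral K P ∧ Spans P) ∧
      ∃ P : ZMod n → EuclideanSpace ℝ (Fin (m + 2)), Function.Injective P ∧
        IsKEquilateral K P ∧ Spans P := by
  have : NeZero n := ⟨by omega⟩
  obtain ⟨s, hs0, hsn, c, hc, hc0, hc1, hc01⟩ := exists_block_coloring (m := m + 1) hK hq h1 h2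
  have hne : ∀ a b : ℕ, a < n → b < n → a ≠ b → ((a : ℕ) : ZMod n) ≠ ((b : ℕ) : ZMod n) := by
    intro a b ha hb hab heq
    have := congrArg ZMod.val heq
    rw [ZMod.val_cast_of_lt ha, ZMod.val_cast_of_lt hb] at this
    exact hab this
  obtain ⟨c', hc', hc0', hc1', _, hsurj⟩ := exists_surjective_coloring (m := m + 1) (K := K)
    (by omega) ((0 : ℕ) : ZMod n) ((s : ℕ) : ZMod n) ((1 : ℕ) : ZMod n) ((s + 1 : ℕ) : ZMod n)
    (hne 0 s (by omega) (by omega) (by omega)) (hne 1 (s + 1) (by omega) (by omega) (by omega))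
    ⟨c, hc, hc0, hc1, hc01⟩
  refine ⟨exists_polygon_of_coloring c' hc' hsurj,
    exists_injective_polygon_of_coloring (by omega) c' hc' hsurj (s : ZMod n) ?_ ?_ ?_⟩
  · have := hne s 0 (by omega) (by omega) (by omega)
    rwa [Nat.cast_zero] at this
  · rwa [Nat.cast_zero] at hc0'
  · rw [Nat.cast_one, Nat.cast_add, Nat.cast_one] at hc1'
    exact hc1'

end Pool.Agent.H50.KEquilateral
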