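import Pool.Agent.H50.KEquilateral

/-!
# Perturbing highly symmetric polygons
-/

namespace Pool.Agent.H50.KEquilateral

open Module Polynomial

set_option linter.unusedSectionVars false
set_option linter.deprecated false

section Characters

variable {n : ℕ} [NeZero n]

/-- The standard additive character `i ↦ exp (2 π I i / n)`. -/
noncomputable abbrev chi (n : ℕ) [NeZero n] : AddChar (ZMod n) ℂ := ZMod.stdAddChar

theorem chi_injective : Function.Injective (chi n) := ZMod.injective_stdAddChar

theorem sum_chi (b : ZMod n) : ∑ i : ZMod n, chi n (i * b) = if b = 0 then (n : ℂ) else 0 := by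
  have h := AddChar.sum_mulShift (ψ := chi n) b (ZMod.isPrimitive_stdAddChar n)
  rw [h, ZMod.card]
  split_ifs <;> simp

theorem chi_neg (b : ZMod n) : chi n (-b) = (starRingEnd ℂ) (chi n b) :=
  AddChar.map_neg_eq_conj _ _

theorem sum_chi_re (f g : ZMod n) (z : ℂ) :
    ∑ i : ZMod n, chi n (i * (-g)) * (((z * chi n (i * f)).re : ℝ) : ℂ) =
      (n : ℂ) / 2 * ((if f = g then z else 0) + if -f = g then (starRingEnd ℂ) z else 0) := by
  have h1 : ∀ i : ZMod n, chi n (i * (-g)) * (((z * chi n (i * f)).re : ℝ) : ℂ) =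
      z / 2 * chi n (i * (f - g)) + (starRingEnd ℂ) z / 2 * chi n (i * (-f - g)) := by
    intro i
    rw [Complex.re_eq_add_conj, map_mul (starRingEnd ℂ), ← chi_neg]
    have e1 : chi n (i * (f - g)) = chi n (i * (-g)) * chi n (i * f) := by
      rw [← AddChar.map_add_eq_mul]; congr 1; ring
    have e2 : chi n (i * (-f - g)) = chi n (i * (-g)) * chi n (-(i * f)) := by
      rw [← AddChar.map_add_eq_mul]; congr 1; ring
    rw [e1, e2]
    ring
  simp only [h1]
  rw [Finset.sum_add_distrib, ← Finset.mul_sum, ← Finset.mul_sum, sum_chi, sum_chi]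
  simp only [sub_eq_zero]
  split_ifs <;> ring

theorem card_ne_zero' : (n : ℂ) ≠ 0 := Nat.cast_ne_zero.2 (NeZero.ne n)

end Characters

section Embedding

variable {d : ℕ}

/-- The Euclidean space of dimension `2 d + 1`, with `d` complex coordinates and a height. -/
abbrev HSpace (d : ℕ) := EuclideanSpace ℝ (Option (Fin d × Fin 2))

/-- The point with complex coordinates `z` and height `h`. -/
noncomputable def emb (z : Fin d → ℂ) (h : ℝ) : HSpace d :=
  WithLp.toLp 2 (fun o => o.elim h (fun p => if p.2 = 0 then (z p.1).re else (z p.1).im))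

theorem emb_sub (z z' : Fin d → ℂ) (h h' : ℝ) :
    emb z h - emb z' h' = emb (fun a => z a - z' a) (h - h') := by
  ext o
  rcases o with _ | ⟨a, b⟩
  · rfl
  · simp only [emb, PiLp.sub_apply, Option.elim_some]
    split_ifs <;> simp

theorem norm_emb_sq (z : Fin d → ℂ) (h : ℝ) : ‖emb z h‖ ^ 2 = h ^ 2 + ∑ a, ‖z a‖ ^ 2 := by
  rw [EuclideanSpace.norm_sq_eq, Fintype.sum_option, Fintype.sum_prod_type]
  simp only [emb, Option.elim_none, Option.elim_some, Fin.sum_univ_two, if_true,
    one_ne_zero, if_false, Real.norm_eq_abs, sq_abs]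
  congr 1
  refine Finset.sum_congr rfl fun a _ => ?_
  rw [Complex.sq_norm, Complex.normSq_apply]
  ring

theorem dist_emb_sq (z z' : Fin d → ℂ) (h h' : ℝ) :
    dist (emb z h) (emb z' h') ^ 2 = (h - h') ^ 2 + ∑ a, ‖z a - z' a‖ ^ 2 := by
  rw [dist_eq_norm, emb_sub, norm_emb_sq]

theorem continuous_emb : Continuous fun p : (Fin d → ℂ) × ℝ => emb p.1 p.2 := by
  unfold emb
  refine (PiLp.continuous_toLp 2 _).comp ?_
  refine continuous_pi fun o => ?_
  rcases o with _ | ⟨a, b⟩
  · exact continuous_snd
  · simp only [Option.elim_some]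
    split_ifs
    · exact Complex.continuous_re.comp ((continuous_apply a).comp continuous_fst)
    · exact Complex.continuous_im.comp ((continuous_apply a).comp continuous_fst)

theorem finrank_HSpace : finrank ℝ (HSpace d) = 2 * d + 1 := by
  rw [finrank_euclideanSpace, Fintype.card_option, Fintype.card_prod, Fintype.card_fin,
    Fintype.card_fin]
  ring

/-- The polygon given by characters in the complex coordinates and in the height spans. -/
theorem base_span {n : ℕ} [NeZero n] (f : Fin d → ZMod n) (u : ZMod n) (hf0 : ∀ a, f a ≠ 0)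
    (hff : Function.Injective f) (hfn : ∀ a b, -f a ≠ f b) (hu0 : u ≠ 0)
    (huf : ∀ a, f a ≠ u) (huf' : ∀ a, -f a ≠ u) :
    affineSpan ℝ (Set.range fun i : ZMod n =>
      emb (fun a => chi n (i * f a)) (chi n (i * u)).re) = ⊤ := by
  rw [AffineSubspace.affineSpan_eq_top_iff_vectorSpan_eq_top_of_nonempty _ _ _
      (Set.range_nonempty _)]
  rw [← Submodule.orthogonal_eq_bot_iff, Submodule.eq_bot_iff]
  intro w hw
  rw [Submodule.mem_orthogonal] at hw
  set s : ℝ := w none with hs
  set z : Fin d → ℂ := fun a => ⟨w (some (a, 0)), -w (some (a, 1))⟩ with hz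
  -- the orthogonality relation
  have hrel : ∀ i : ZMod n, s * (chi n (i * u)).re + ∑ a, (z a * chi n (i * f a)).re =
      s * (chi n (0 * u)).re + ∑ a, (z a * chi n (0 * f a)).re := by
    intro i
    have h1 := hw _ (vsub_mem_vectorSpan ℝ (Set.mem_range_self i)
      (Set.mem_range_self (0 : ZMod n)))
    simp only [vsub_eq_sub] at h1
    rw [emb_sub, PiLp.inner_apply, Fintype.sum_option, Fintype.sum_prod_type] at h1
    simp only [emb, Option.elim_none, Option.elim_some, Fin.sum_univ_two, if_true, one_ne_zero,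
      if_false, RCLike.inner_apply, conj_trivial, Complex.sub_re, Complex.sub_im] at h1
    have h2 : ∀ (j : ZMod n) (a : Fin d), (z a * chi n (j * f a)).re =
        w (some (a, 0)) * (chi n (j * f a)).re + w (some (a, 1)) * (chi n (j * f a)).im := by
      intro j a
      simp [hz, Complex.mul_re]
    simp only [h2]
    have h3 : ∑ a, (w (some (a, 0)) * (chi n (i * f a)).re +
        w (some (a, 1)) * (chi n (i * f a)).im) - ∑ a, (w (some (a, 0)) * (chi n (0 * f a)).re +
        w (some (a, 1)) * (chi n (0 * f a)).im) =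
        ∑ a, (w (some (a, 0)) * ((chi n (i * f a)).re - (chi n (0 * f a)).re) +
        w (some (a, 1)) * ((chi n (i * f a)).im - (chi n (0 * f a)).im)) := by
      rw [← Finset.sum_sub_distrib]
      refine Finset.sum_congr rfl fun a _ => ?_
      ring
    have h4 : s * ((chi n (i * u)).re - (chi n (0 * u)).re) +
        ∑ a, (w (some (a, 0)) * ((chi n (i * f a)).re - (chi n (0 * f a)).re) +
        w (some (a, 1)) * ((chi n (i * f a)).im - (chi n (0 * f a)).im)) = 0 := h1
    linarith
  set C : ℝ := s * (chi n (0 * u)).re + ∑ a, (z a * chi n (0 * f a)).re with hC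
  -- Fourier coefficients
  have hfour : ∀ g : ZMod n, g ≠ 0 →
      (n : ℂ) / 2 * ((if u = g then (s : ℂ) else 0) +
        if -u = g then (starRingEnd ℂ) (s : ℂ) else 0) +
      ∑ a, (n : ℂ) / 2 * ((if f a = g then z a else 0) +
        if -f a = g then (starRingEnd ℂ) (z a) else 0) = 0 := by
    intro g hg
    have h1 : ∑ i : ZMod n, chi n (i * (-g)) * ((C : ℝ) : ℂ) = 0 := by
      rw [← Finset.sum_mul, sum_chi, if_neg (by simpa using hg), zero_mul]
    refine Eq.trans ?_ h1
    rw [← sum_chi_re u g (s : ℂ)]
    have h2 : ∀ a, (n : ℂ) / 2 * ((if f a = g then z a else 0) +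
        if -f a = g then (starRingEnd ℂ) (z a) else 0) =
        ∑ i : ZMod n, chi n (i * (-g)) * (((z a * chi n (i * f a)).re : ℝ) : ℂ) :=
      fun a => (sum_chi_re (f a) g (z a)).symm
    simp only [h2]
    rw [Finset.sum_comm, ← Finset.sum_add_distrib]
    refine Finset.sum_congr rfl fun i _ => ?_
    rw [← Finset.mul_sum, ← mul_add, ← hrel i]
    congr 1
    push_cast
    rw [Complex.re_ofReal_mul]
    push_cast
    rfl
  have hn2 : (n : ℂ) / 2 ≠ 0 := div_ne_zero card_ne_zero' two_ne_zero
  have hz0 : ∀ b, z b = 0 := by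
    intro b
    have h1 := hfour (f b) (hf0 b)
    rw [if_neg (Ne.symm (huf b)), if_neg (fun h => huf' b (by rw [← h, neg_neg])), add_zero,
      mul_zero, zero_add, Finset.sum_eq_single b, if_pos rfl, if_neg (hfn b b), add_zero] at h1
    · exact (mul_eq_zero.1 h1).resolve_left hn2
    · intro a _ hab
      rw [if_neg (fun h => hab (hff h)), if_neg (hfn a b), add_zero, mul_zero]
    · intro h; exact absurd (Finset.mem_univ b) h
  have hs0 : s = 0 := by
    have h1 := hfour u hu0
    rw [if_pos rfl, Finset.sum_eq_zero, add_zero] at h1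
    · have h2 := (mul_eq_zero.1 h1).resolve_left hn2
      rw [Complex.conj_ofReal] at h2
      split_ifs at h2
      · have h3 : (s : ℂ) = 0 := by linear_combination h2 / 2
        exact_mod_cast h3
      · rw [add_zero] at h2
        exact_mod_cast h2
    · intro a _
      rw [if_neg (huf a), if_neg (huf' a), add_zero, mul_zero]
  ext o
  rcases o with _ | ⟨a, b⟩
  · exact hs0
  · have h1 := hz0 a
    rw [hz] at h1
    have h2 := congrArg Complex.re h1
    have h3 := congrArg Complex.im h1
    simp only [Complex.zero_re, Complex.zero_im, neg_eq_zero] at h2 h3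
    fin_cases b
    · exact h2
    · exact h3

end Embedding

section Perturbation

variable {n : ℕ} [NeZero n] {d K : ℕ}

/-- The space of planar data together with the squared distances. -/
abbrev Data (n d K : ℕ) := (ZMod n → Fin d → ℂ) × (Fin K → ℝ)

/-- The difference of the `i`-th and the `(i+j+1)`-th vertex in the `a`-th coordinate. -/
noncomputable def stepL (i : ZMod n) (j : Fin K) (a : Fin d) : Data n d K →L[ℝ] ℂ :=
  (ContinuousLinearMap.proj a).comp ((ContinuousLinearMap.proj i).comp
    (ContinuousLinearMap.fst ℝ (ZMod n → Fin d → ℂ) (Fin K → ℝ))) -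
  (ContinuousLinearMap.proj a).comp ((ContinuousLinearMap.proj (i + ((j.val + 1 : ℕ) : ZMod n))).comp
    (ContinuousLinearMap.fst ℝ (ZMod n → Fin d → ℂ) (Fin K → ℝ)))

theorem stepL_apply (i : ZMod n) (j : Fin K) (a : Fin d) (p : Data n d K) :
    stepL i j a p = p.1 i a - p.1 (i + ((j.val + 1 : ℕ) : ZMod n)) a := rfl

/-- The defect of the squared distances. -/
noncomputable def defect (p : Data n d K) : ZMod n → Fin K → ℝ :=
  fun i j => ∑ a, ‖stepL i j a p‖ ^ 2 - p.2 j

/-- The derivative of `defect`. -/
noncomputable def defect' (p : Data n d K) : Data n d K →L[ℝ] (ZMod n → Fin K → ℝ) :=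
  ContinuousLinearMap.pi fun i => ContinuousLinearMap.pi fun j =>
    ∑ a, (2 • innerSL ℝ (stepL i j a p)).comp (stepL i j a) -
      (ContinuousLinearMap.proj j).comp
        (ContinuousLinearMap.snd ℝ (ZMod n → Fin d → ℂ) (Fin K → ℝ))

theorem defect'_apply (p v : Data n d K) (i : ZMod n) (j : Fin K) :
    defect' p v i j =
      ∑ a, 2 * ((starRingEnd ℂ) (stepL i j a p) * stepL i j a v).re - v.2 j := by
  simp only [defect', ContinuousLinearMap.coe_pi', ContinuousLinearMap.sub_apply,
    ContinuousLinearMap.sum_apply, ContinuousLinearMap.comp_apply,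
    ContinuousLinearMap.smul_apply, innerSL_apply_apply, ContinuousLinearMap.proj_apply,
    ContinuousLinearMap.coe_snd', nsmul_eq_mul, Nat.cast_ofNat]
  congr 1
  refine Finset.sum_congr rfl fun a _ => ?_
  rw [Complex.inner, mul_comm (stepL i j a v)]

theorem hasStrictFDerivAt_defect (p : Data n d K) :
    HasStrictFDerivAt (defect : Data n d K → _) (defect' p) p := by
  unfold defect'
  rw [hasStrictFDerivAt_pi]
  intro i
  rw [hasStrictFDerivAt_pi]
  intro j
  refine HasStrictFDerivAt.sub ?_ ?_
  · refine HasStrictFDerivAt.fun_sum fun a _ => ?_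
    exact (hasStrictFDerivAt_norm_sq (stepL i j a p)).comp p (stepL i j a).hasStrictFDerivAt
  · exact ((ContinuousLinearMap.proj j).comp
      (ContinuousLinearMap.snd ℝ (ZMod n → Fin d → ℂ) (Fin K → ℝ))).hasStrictFDerivAt

/-- The symmetric polygon. -/
noncomputable def symPoly (f : Fin d → ZMod n) : ZMod n → Fin d → ℂ := fun i a => chi n (i * f a)

/-- The symmetric polygon together with its squared distances. -/
noncomputable def symData (K : ℕ) (f : Fin d → ZMod n) : Data n d K :=
  (symPoly f, fun j => ∑ a, ‖1 - chi n (((j.val + 1 : ℕ) : ZMod n) * f a)‖ ^ 2)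

theorem norm_chi (b : ZMod n) : ‖chi n b‖ = 1 := by
  rw [ZMod.stdAddChar_apply]; exact Circle.norm_coe _

theorem stepL_symData (f : Fin d → ZMod n) (i : ZMod n) (j : Fin K) (a : Fin d) :
    stepL i j a (symData K f) =
      chi n (i * f a) * (1 - chi n (((j.val + 1 : ℕ) : ZMod n) * f a)) := by
  rw [stepL_apply]
  show chi n (i * f a) - chi n ((i + ((j.val + 1 : ℕ) : ZMod n)) * f a) = _
  rw [add_mul, AddChar.map_add_eq_mul]
  ring

theorem defect_symData (f : Fin d → ZMod n) : defect (symData K f) = 0 := by
  funext i j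
  show ∑ a, ‖stepL i j a (symData K f)‖ ^ 2 -
    ∑ a, ‖1 - chi n (((j.val + 1 : ℕ) : ZMod n) * f a)‖ ^ 2 = 0
  rw [sub_eq_zero]
  refine Finset.sum_congr rfl fun a _ => ?_
  rw [stepL_symData, norm_mul, norm_chi, one_mul]

/-- A real functional vanishing on the range of the derivative has all its Fourier coefficients
in the kernel of a trigonometric polynomial. -/
theorem relation (f : Fin d → ZMod n) (ω : ZMod n → Fin K → ℝ)
    (hω : ∀ v : Data n d K, ∑ i, ∑ j, ω i j * defect' (symData K f) v i j = 0)
    (b : Fin d) (m : ZMod n) :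
    ∑ j, (∑ i, (ω i j : ℂ) * chi n (i * m)) *
      ((1 - chi n (-(((j.val + 1 : ℕ) : ZMod n) * f b))) *
        (1 - chi n (((j.val + 1 : ℕ) : ZMod n) * (f b + m)))) = 0 := by
  set A : Fin K → ℂ := fun j => (1 - chi n (-(((j.val + 1 : ℕ) : ZMod n) * f b))) *
        (1 - chi n (((j.val + 1 : ℕ) : ZMod n) * (f b + m))) with hA
  set S : ℂ := ∑ j, (∑ i, (ω i j : ℂ) * chi n (i * m)) * A j with hS
  have key : ∀ z : ℂ, (z * S).re = 0 := by
    intro z
    set v : Data n d K := (fun i a => if a = b then z * chi n (i * (f b + m)) else 0, 0) with hv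
    have h1 := hω v
    have h2 : ∀ i j, defect' (symData K f) v i j =
        2 * (z * (chi n (i * m) * A j)).re := by
      intro i j
      rw [defect'_apply]
      have h3 : ∀ a, stepL i j a v = if a = b then
          z * chi n (i * (f b + m)) * (1 - chi n (((j.val + 1 : ℕ) : ZMod n) * (f b + m)))
          else 0 := by
        intro a
        rw [stepL_apply]
        show (if a = b then z * chi n (i * (f b + m)) else 0) -
          (if a = b then z * chi n ((i + ((j.val + 1 : ℕ) : ZMod n)) * (f b + m)) else 0) = _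
        split_ifs
        · rw [add_mul (i : ZMod n), AddChar.map_add_eq_mul]; ring
        · simp
      have h4 : v.2 j = 0 := rfl
      rw [h4, sub_zero, Finset.sum_eq_single b]
      · rw [h3, if_pos rfl, stepL_symData, map_mul (starRingEnd ℂ), ← chi_neg,
          map_sub (starRingEnd ℂ), map_one (starRingEnd ℂ), ← chi_neg]
        have h5 : chi n (i * m) = chi n (-(i * f b)) * chi n (i * (f b + m)) := by
          rw [← AddChar.map_add_eq_mul]; congr 1; ring
        rw [h5, hA]
        congr 2
        ring
      · intro a _ hab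
        rw [h3, if_neg hab, mul_zero, Complex.zero_re, mul_zero]
      · intro h; exact absurd (Finset.mem_univ b) h
    simp only [h2] at h1
    have h6 : ((z * S).re : ℝ) = ∑ i, ∑ j, ω i j * (z * (chi n (i * m) * A j)).re := by
      have h7 : z * S = ∑ i, ∑ j, (ω i j : ℂ) * (z * (chi n (i * m) * A j)) := by
        rw [hS, Finset.mul_sum, Finset.sum_comm]
        refine Finset.sum_congr rfl fun j _ => ?_
        rw [Finset.sum_mul, Finset.mul_sum]
        refine Finset.sum_congr rfl fun i _ => ?_
        ring
      rw [h7, Complex.re_sum]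
      refine Finset.sum_congr rfl fun i _ => ?_
      rw [Complex.re_sum]
      refine Finset.sum_congr rfl fun j _ => ?_
      rw [Complex.re_ofReal_mul]
    have h8 : ∑ i, ∑ j, ω i j * (2 * (z * (chi n (i * m) * A j)).re) =
        2 * ∑ i, ∑ j, ω i j * (z * (chi n (i * m) * A j)).re := by
      rw [Finset.mul_sum]
      refine Finset.sum_congr rfl fun i _ => ?_
      rw [Finset.mul_sum]
      refine Finset.sum_congr rfl fun j _ => ?_
      ring
    rw [h8] at h1
    rw [h6]
    linarith
  have h1 := key ((starRingEnd ℂ) S)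
  rw [mul_comm, Complex.mul_conj, Complex.ofReal_re] at h1
  exact Complex.normSq_eq_zero.1 h1

/-- The functions `g ↦ (1 - χ(-jg)) (1 - χ(j(g+m)))` of `j`. -/
noncomputable def tri (m g : ZMod n) (j : Fin K) : ℂ :=
  (1 - chi n (-(((j.val + 1 : ℕ) : ZMod n) * g))) *
    (1 - chi n (((j.val + 1 : ℕ) : ZMod n) * (g + m)))

/-- A combination of these functions with many zeros is trivial. -/
theorem eq_zero_of_zeros (m : ZMod n) (W : Fin K → ℂ) (S : Finset (ZMod n))
    (hS : 2 * K + 1 ≤ S.card) (hz : ∀ g ∈ S, ∑ j, W j * tri m g j = 0) (j : Fin K) : W j = 0 := by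
  classical
  -- the polynomial
  set p : ℂ[X] := ∑ j : Fin K, C (W j) * (C (1 + chi n (((j.val + 1 : ℕ) : ZMod n) * m)) * X ^ K -
    X ^ (K - (j.val + 1)) - C (chi n (((j.val + 1 : ℕ) : ZMod n) * m)) * X ^ (K + (j.val + 1)))
    with hp
  have hdeg : p.natDegree ≤ 2 * K := by
    refine Polynomial.natDegree_sum_le_of_forall_le _ _ fun j _ => ?_
    have hj := j.isLt
    refine (Polynomial.natDegree_C_mul_le _ _).trans ?_
    refine (Polynomial.natDegree_sub_le_of_le (Polynomial.natDegree_sub_le_of_le
      (m := 2 * K) (n := 2 * K) ?_ ?_) (n := 2 * K) ?_).trans (by simp)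
    · exact (Polynomial.natDegree_C_mul_X_pow_le _ _).trans (by omega)
    · rw [Polynomial.natDegree_X_pow]; omega
    · exact (Polynomial.natDegree_C_mul_X_pow_le _ _).trans (by omega)
  have heval : ∀ g : ZMod n, p.eval (chi n g) = chi n g ^ K * ∑ j, W j * tri m g j := by
    intro g
    rw [hp, Polynomial.eval_finset_sum, Finset.mul_sum]
    refine Finset.sum_congr rfl fun j _ => ?_
    simp only [Polynomial.eval_mul, Polynomial.eval_sub, Polynomial.eval_C, Polynomial.eval_pow,
      Polynomial.eval_X]
    have hj : j.val + 1 ≤ K := j.isLt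
    set t := chi n g with ht
    set l : ℕ := j.val + 1 with hl
    have h1 : t ^ l = chi n ((l : ZMod n) * g) := by
      rw [ht, ← AddChar.map_nsmul_eq_pow, nsmul_eq_mul]
    have h2 : t ^ K = t ^ (K - l) * t ^ l := by
      rw [← pow_add, Nat.sub_add_cancel hj]
    have h3 : chi n (-((l : ZMod n) * g)) * t ^ l = 1 := by
      rw [h1, ← AddChar.map_add_eq_mul, neg_add_cancel, AddChar.map_zero_eq_one]
    have h4 : tri m g j = 1 + chi n ((l : ZMod n) * m) - chi n (-((l : ZMod n) * g)) -
        chi n ((l : ZMod n) * m) * t ^ l := by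
      have h5 : chi n ((l : ZMod n) * (g + m)) = chi n ((l : ZMod n) * m) * t ^ l := by
        rw [h1, ← AddChar.map_add_eq_mul]; congr 1; ring
      unfold tri
      rw [← hl, h5]
      linear_combination chi n ((l : ZMod n) * m) * h3
    rw [h4, pow_add]
    linear_combination (W j * chi n (-((l : ZMod n) * g))) * h2 + W j * t ^ (K - l) * h3
  have hp0 : p = 0 := by
    apply Polynomial.eq_zero_of_natDegree_lt_card_of_eval_eq_zero' p (S.image (chi n))
    · intro t ht
      rw [Finset.mem_image] at ht
      obtain ⟨g, hg, rfl⟩ := ht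
      rw [heval, hz g hg, mul_zero]
    · rw [Finset.card_image_of_injective _ chi_injective]
      omega
  have hcoeff := congrArg (fun q : ℂ[X] => q.coeff (K - (j.val + 1))) hp0
  simp only [Polynomial.coeff_zero] at hcoeff
  rw [hp, Polynomial.finset_sum_coeff, Finset.sum_eq_single j] at hcoeff
  · have hj : j.val + 1 ≤ K := j.isLt
    rw [Polynomial.coeff_C_mul, Polynomial.coeff_sub, Polynomial.coeff_sub,
      Polynomial.coeff_C_mul_X_pow, Polynomial.coeff_C_mul_X_pow, Polynomial.coeff_X_pow] at hcoeff
    have e1 : K - (j.val + 1) ≠ K := by omega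
    have e2 : K - (j.val + 1) ≠ K + (j.val + 1) := by omega
    simp only [e1, e2, if_false, if_true] at hcoeff
    linear_combination -hcoeff
  · intro i _ hij
    have hi : i.val + 1 ≤ K := i.isLt
    have hj : j.val + 1 ≤ K := j.isLt
    have hne : i.val ≠ j.val := fun h => hij (Fin.ext h)
    rw [Polynomial.coeff_C_mul, Polynomial.coeff_sub, Polynomial.coeff_sub,
      Polynomial.coeff_C_mul_X_pow, Polynomial.coeff_C_mul_X_pow, Polynomial.coeff_X_pow]
    have e1 : K - (j.val + 1) ≠ K := by omega
    have e2 : K - (j.val + 1) ≠ K - (i.val + 1) := by omega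
    have e3 : K - (j.val + 1) ≠ K + (i.val + 1) := by omega
    simp only [e1, e2, e3, if_false]
    ring
  · intro h; exact absurd (Finset.mem_univ j) h

open Classical in
/-- The frequencies `0, ±f`. -/
noncomputable def freq (f : Fin d → ZMod n) : Finset (ZMod n) :=
  insert 0 (Finset.univ.image f ∪ Finset.univ.image (fun a => -f a))

open Classical in
/-- The derivative is onto if the frequencies are in general position. -/
theorem surj_defect' (f : Fin d → ZMod n)
    (hG : ∀ m : ZMod n, m ≠ 0 →
      2 * K + 1 ≤ (freq f ∪ (freq f).image (fun g => g - m)).card) :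
    (defect' (symData K f)).range = ⊤ := by
  by_contra hne
  obtain ⟨g, hg0, hg⟩ := Submodule.exists_le_ker_of_lt_top _ (lt_top_iff_ne_top.2 hne)
  set ω : ZMod n → Fin K → ℝ := fun i j => g (Pi.single i (Pi.single j 1)) with hωdef
  have hgω : ∀ z : ZMod n → Fin K → ℝ, g z = ∑ i, ∑ j, ω i j * z i j := by
    intro z
    have h1 : z = ∑ i, ∑ j, z i j • (Pi.single i (Pi.single j (1 : ℝ)) : ZMod n → Fin K → ℝ) := by
      funext i j
      simp only [Finset.sum_apply, Pi.smul_apply]
      rw [Finset.sum_eq_single i, Finset.sum_eq_single j]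
      · simp
      · intro j' _ hj'
        simp [hj'.symm]
      · intro h; exact absurd (Finset.mem_univ j) h
      · intro i' _ hi'
        apply Finset.sum_eq_zero
        intro j' _
        rw [Pi.single_eq_of_ne hi'.symm]
        simp
      · intro h; exact absurd (Finset.mem_univ i) h
    conv_lhs => rw [h1]
    rw [map_sum]
    refine Finset.sum_congr rfl fun i _ => ?_
    rw [map_sum]
    refine Finset.sum_congr rfl fun j _ => ?_
    rw [map_smul, smul_eq_mul, mul_comm]
  have hω : ∀ v : Data n d K, ∑ i, ∑ j, ω i j * defect' (symData K f) v i j = 0 := by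
    intro v
    rw [← hgω]
    have h1 : defect' (symData K f) v ∈ LinearMap.ker g := hg ⟨v, rfl⟩
    exact h1
  -- Fourier coefficients
  set W : ZMod n → Fin K → ℂ := fun m j => ∑ i, (ω i j : ℂ) * chi n (i * m) with hW
  have hW0 : ∀ j, W 0 j = 0 := by
    intro j
    have h1 := hω ((0 : ZMod n → Fin d → ℂ), Pi.single j 1)
    have h2 : ∀ i j', defect' (symData K f) ((0 : ZMod n → Fin d → ℂ), Pi.single j 1) i j' =
        -(Pi.single j (1 : ℝ) : Fin K → ℝ) j' := by
      intro i j'
      rw [defect'_apply]
      have h3 : ∀ a, stepL i j' a (((0 : ZMod n → Fin d → ℂ), Pi.single j 1) : Data n d K) = 0 := by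
        intro a
        rw [stepL_apply]
        simp
      simp only [h3, mul_zero, Complex.zero_re, Finset.sum_const_zero, zero_sub]
    simp only [h2] at h1
    have h4 : ∑ i, ω i j = 0 := by
      have h5 : ∀ i, ∑ j', ω i j' * -(Pi.single j (1 : ℝ) : Fin K → ℝ) j' = -ω i j := by
        intro i
        rw [Finset.sum_eq_single j]
        · simp
        · intro j' _ hj'
          simp [hj']
        · intro h; exact absurd (Finset.mem_univ j) h
      simp only [h5, Finset.sum_neg_distrib, neg_eq_zero] at h1
      exact h1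
    rw [hW]
    simp only [mul_zero, AddChar.map_zero_eq_one, mul_one]
    exact_mod_cast h4
  have hrel : ∀ (m : ZMod n), ∀ g ∈ freq f, ∑ j, W m j * tri m g j = 0 := by
    intro m g hg
    rw [freq, Finset.mem_insert, Finset.mem_union, Finset.mem_image, Finset.mem_image] at hg
    rcases hg with rfl | ⟨b, _, rfl⟩ | ⟨b, _, rfl⟩
    · apply Finset.sum_eq_zero
      intro j _
      unfold tri
      rw [mul_zero, neg_zero, AddChar.map_zero_eq_one, sub_self, zero_mul, mul_zero]
    · exact relation f ω hω b m
    · have h1 := relation f ω hω b (-m)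
      have h2 := congrArg (starRingEnd ℂ) h1
      rw [map_zero, map_sum] at h2
      rw [← h2]
      refine Finset.sum_congr rfl fun j _ => ?_
      rw [map_mul (starRingEnd ℂ), map_sum, map_mul (starRingEnd ℂ), map_sub (starRingEnd ℂ),
        map_sub (starRingEnd ℂ), map_one, ← chi_neg, ← chi_neg]
      congr 1
      · refine Finset.sum_congr rfl fun i _ => ?_
        rw [map_mul (starRingEnd ℂ), Complex.conj_ofReal, ← chi_neg]
        congr 2; ring
      · unfold tri
        congr 3 <;> ring
  have hWm : ∀ m j, W m j = 0 := by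
    intro m j
    by_cases hm : m = 0
    · rw [hm]; exact hW0 j
    · apply eq_zero_of_zeros m (W m) _ (hG m hm)
      intro g hg
      rw [Finset.mem_union] at hg
      rcases hg with hg | hg
      · exact hrel m g hg
      · rw [Finset.mem_image] at hg
        obtain ⟨g', hg', rfl⟩ := hg
        have hneg : -g' ∈ freq f := by
          rw [freq, Finset.mem_insert, Finset.mem_union, Finset.mem_image, Finset.mem_image] at hg' ⊢
          rcases hg' with rfl | ⟨b, hb, rfl⟩ | ⟨b, hb, rfl⟩
          · left; simp
          · right; right; exact ⟨b, hb, rfl⟩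
          · right; left; exact ⟨b, hb, by rw [neg_neg]⟩
        rw [← hrel m (-g') hneg]
        refine Finset.sum_congr rfl fun j _ => ?_
        congr 1
        unfold tri
        rw [mul_comm]
        congr 3 <;> ring
  -- hence the functional vanishes
  have hω0 : ∀ i j, ω i j = 0 := by
    intro i₀ j
    have h1 : ∑ m : ZMod n, chi n (-(i₀ * m)) * W m j = 0 := by
      apply Finset.sum_eq_zero
      intro m _
      rw [hWm, mul_zero]
    have h2 : ∑ m : ZMod n, chi n (-(i₀ * m)) * W m j = (n : ℂ) * ω i₀ j := by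
      have h3 : ∀ m : ZMod n, chi n (-(i₀ * m)) * W m j =
          ∑ i, (ω i j : ℂ) * chi n (m * (i - i₀)) := by
        intro m
        rw [hW, Finset.mul_sum]
        refine Finset.sum_congr rfl fun i _ => ?_
        have h4 : chi n (m * (i - i₀)) = chi n (-(i₀ * m)) * chi n (i * m) := by
          rw [← AddChar.map_add_eq_mul]; congr 1; ring
        rw [h4]; ring
      simp only [h3]
      rw [Finset.sum_comm, Finset.sum_eq_single i₀]
      · rw [← Finset.mul_sum, sum_chi, if_pos (sub_self _), mul_comm]
      · intro i _ hi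
        rw [← Finset.mul_sum, sum_chi, if_neg (sub_ne_zero.2 hi), mul_zero]
      · intro h; exact absurd (Finset.mem_univ i₀) h
    rw [h1] at h2
    have h5 := (mul_eq_zero.1 h2.symm).resolve_left card_ne_zero'
    exact_mod_cast h5
  apply hg0
  refine LinearMap.ext fun z => ?_
  rw [hgω]
  simp [hω0]

/-- Multiplication of the height by `ε`. -/
noncomputable def scaleH (ε : ℝ) : HSpace d →ₗ[ℝ] HSpace d where
  toFun v := WithLp.toLp 2 (fun o => o.elim (ε * v none) (fun p => v (some p)))
  map_add' v w := by
    ext o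
    rcases o with _ | p
    · simp only [Option.elim_none, PiLp.add_apply]; ring
    · simp only [Option.elim_some, PiLp.add_apply]
  map_smul' r v := by
    ext o
    rcases o with _ | p
    · simp only [Option.elim_none, PiLp.smul_apply, smul_eq_mul, RingHom.id_apply]; ring
    · simp only [Option.elim_some, PiLp.smul_apply, RingHom.id_apply]

theorem scaleH_emb (ε : ℝ) (z : Fin d → ℂ) (h : ℝ) : scaleH ε (emb z h) = emb z (ε * h) := by
  ext o
  rcases o with _ | p <;> rfl

theorem scaleH_injective {ε : ℝ} (hε : ε ≠ 0) :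
    Function.Injective (scaleH ε : HSpace d →ₗ[ℝ] HSpace d) := by
  intro v w h
  ext o
  rcases o with _ | p
  · have h1 : ε * v none = ε * w none := congrArg (fun x : HSpace d => x none) h
    exact mul_left_cancel₀ hε h1
  · have h1 : (scaleH ε v : HSpace d) (some p) = (scaleH ε w : HSpace d) (some p) := by rw [h]
    exact h1

/-- **Perturbation theorem.** If the frequencies `0, ±f` are in general position, the symmetric
polygon can be perturbed to a `K`-equilateral polygon that spans a space of one more dimension. -/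
theorem exists_perturbed (f : Fin d → ZMod n) (u : ZMod n) (hf0 : ∀ a, f a ≠ 0)
    (hff : Function.Injective f) (hfn : ∀ a b, -f a ≠ f b) (hu0 : u ≠ 0)
    (huf : ∀ a, f a ≠ u) (huf' : ∀ a, -f a ≠ u)
    (hG : ∀ m : ZMod n, m ≠ 0 →
      2 * K + 1 ≤ (freq f ∪ (freq f).image (fun g => g - m)).card)
    (hinj : Function.Injective (symPoly f)) :
    ∃ P : ZMod n → EuclideanSpace ℝ (Fin (2 * d + 1)), Function.Injective P ∧
      IsKEquilateral K P ∧ Spans P := by
  set h : ZMod n → ℝ := fun i => (chi n (i * u)).re with hh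
  set p₀ : Data n d K := symData K f with hp₀
  have hmap : Filter.map (defect : Data n d K → _) (nhds p₀) = nhds 0 := by
    rw [← defect_symData (K := K) f]
    exact (hasStrictFDerivAt_defect p₀).map_nhds_eq_of_surj (surj_defect' f hG)
  -- the polygons near the symmetric one have distinct vertices
  have hev1 : ∀ᶠ p : Data n d K in nhds p₀, ∀ i j : ZMod n, i ≠ j → p.1 i ≠ p.1 j := by
    rw [Filter.eventually_all]
    intro i
    rw [Filter.eventually_all]
    intro j
    by_cases hij : i = j
    · exact Filter.Eventually.of_forall fun p hne => absurd hij hne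
    · have hopen : IsOpen {p : Data n d K | p.1 i ≠ p.1 j} :=
        isOpen_ne_fun ((continuous_apply i).comp continuous_fst)
          ((continuous_apply j).comp continuous_fst)
      have hmem : p₀ ∈ {p : Data n d K | p.1 i ≠ p.1 j} := fun heq => hij (hinj heq)
      filter_upwards [hopen.mem_nhds hmem] with p hp _
      exact hp
  -- and span together with the height function
  have hbase : affineSpan ℝ (Set.range fun i : ZMod n => emb (p₀.1 i) (h i)) = ⊤ :=
    base_span f u hf0 hff hfn hu0 huf huf'
  have hev2 : ∀ᶠ p : Data n d K in nhds p₀,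
      affineSpan ℝ (Set.range fun i : ZMod n => emb (p.1 i) (h i)) = ⊤ := by
    obtain ⟨t, ht, hspan, hind⟩ := exists_affineIndependent ℝ (HSpace d)
      (Set.range fun i : ZMod n => emb (p₀.1 i) (h i))
    have hfin : t.Finite := (Set.finite_range _).subset ht
    have : Fintype t := hfin.fintype
    choose σ hσ using fun y : t => ht y.2
    have hσ' : (fun y : t => emb (p₀.1 (σ y)) (h (σ y))) = ((↑) : t → HSpace d) := by
      funext y; exact hσ y
    have hind' : AffineIndependent ℝ (fun y : t => emb (p₀.1 (σ y)) (h (σ y))) := by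
      rw [hσ']; exact hind
    have hcard : Fintype.card t = finrank ℝ (HSpace d) + 1 := by
      rw [← hind'.affineSpan_eq_top_iff_card_eq_finrank_add_one, hσ', Subtype.range_coe, hspan]
      exact hbase
    have hcont : Continuous fun p : Data n d K => fun y : t => emb (p.1 (σ y)) (h (σ y)) := by
      refine continuous_pi fun y => ?_
      show Continuous ((fun q : (Fin d → ℂ) × ℝ => emb q.1 q.2) ∘
        fun p : Data n d K => (p.1 (σ y), h (σ y)))
      exact continuous_emb.comp
        (((continuous_apply (σ y)).comp continuous_fst).prodMk continuous_const)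
    have hopen : IsOpen {q : t → HSpace d | AffineIndependent ℝ q} :=
      isOpen_setOfPred_affineIndependent
    have hmem := (hopen.preimage hcont).mem_nhds (x := p₀) hind'
    filter_upwards [hmem] with p hp
    have hp' : AffineIndependent ℝ (fun y : t => emb (p.1 (σ y)) (h (σ y))) := hp
    have h1 := hp'.affineSpan_eq_top_iff_card_eq_finrank_add_one.2 hcard
    rw [eq_top_iff, ← h1]
    apply affineSpan_mono
    rintro _ ⟨y, rfl⟩
    exact ⟨σ y, rfl⟩
  -- the curve of defects
  set γ : ℝ → ZMod n → Fin K → ℝ := fun ε i j =>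
    -(ε * h i - ε * h (i + ((j.val + 1 : ℕ) : ZMod n))) ^ 2 with hγ
  have hγ0 : γ 0 = 0 := by
    funext i j
    simp [hγ]
  have hγc : Continuous γ := by
    refine continuous_pi fun i => continuous_pi fun j => ?_
    fun_prop
  have himg := Filter.image_mem_map (m := (defect : Data n d K → _)) (hev1.and hev2)
  rw [hmap] at himg
  have hev3 : ∀ᶠ ε in nhdsWithin (0 : ℝ) {0}ᶜ, γ ε ∈ defect '' {p : Data n d K |
      (∀ i j : ZMod n, i ≠ j → p.1 i ≠ p.1 j) ∧
        affineSpan ℝ (Set.range fun i : ZMod n => emb (p.1 i) (h i)) = ⊤} := by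
    have h1 : Filter.Tendsto γ (nhdsWithin (0 : ℝ) {0}ᶜ) (nhds 0) := by
      rw [← hγ0]
      exact (hγc.tendsto 0).mono_left nhdsWithin_le_nhds
    exact h1.eventually himg
  obtain ⟨ε, hε, hε0⟩ := (hev3.and self_mem_nhdsWithin).exists
  obtain ⟨p, ⟨hp1, hp2⟩, hp⟩ := hε
  have hε0' : ε ≠ 0 := hε0
  -- the polygon
  set Q : ZMod n → HSpace d := fun i => emb (p.1 i) (ε * h i) with hQ
  have hfin : finrank ℝ (vectorSpan ℝ (Set.range Q)) = 2 * d + 1 := by
    have h1 : Set.range Q = (scaleH ε : HSpace d →ₗ[ℝ] HSpace d).toAffineMap ''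
        (Set.range fun i : ZMod n => emb (p.1 i) (h i)) := by
      rw [← Set.range_comp]
      exact congrArg Set.range (funext fun i => (scaleH_emb ε (p.1 i) (h i)).symm)
    have h2 : vectorSpan ℝ (Set.range fun i : ZMod n => emb (p.1 i) (h i)) = ⊤ :=
      AffineSubspace.vectorSpan_eq_top_of_affineSpan_eq_top ℝ _ _ hp2
    rw [h1, ← AffineMap.vectorSpan_image_eq_submodule_map, h2, Submodule.map_top]
    rw [LinearMap.finrank_range_of_inj, finrank_HSpace]
    exact scaleH_injective hε0'
  obtain ⟨P, hPdist, hPspan⟩ := exists_spanning Q (2 * d + 1) hfin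
  have hsq : ∀ (i : ZMod n) (j : Fin K),
      dist (Q i) (Q (i + ((j.val + 1 : ℕ) : ZMod n))) ^ 2 = p.2 j := by
    intro i j
    rw [hQ, dist_emb_sq]
    have h1 := congrFun (congrFun hp i) j
    rw [hγ] at h1
    simp only [defect, stepL_apply] at h1
    linarith
  refine ⟨P, ?_, ?_, hPspan⟩
  · intro i j hij
    by_contra hne
    have h1 : dist (Q i) (Q j) = 0 := by rw [← hPdist, hij, dist_self]
    have h2 : Q i = Q j := dist_eq_zero.1 h1
    apply hp1 i j hne
    funext a
    apply Complex.ext
    · have := congrArg (fun x : HSpace d => x (some (a, 0))) h2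
      exact this
    · have := congrArg (fun x : HSpace d => x (some (a, 1))) h2
      exact this
  · intro j hj1 hjK
    refine ⟨√(p.2 ⟨j - 1, by omega⟩), fun i => ?_⟩
    have h1 := hsq i ⟨j - 1, by omega⟩
    simp only [Nat.sub_add_cancel hj1] at h1
    rw [hPdist, ← h1, Real.sqrt_sq dist_nonneg]

end Perturbation

end Pool.Agent.H50.KEquilateral
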