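import Pool.Agent.H86.Z1.Mid

/-!
# Project ZN (MP_13a5e6_an): parts of the final statement

`cell_exists`: every point is in a cell; `final_zero`: the middle zone.
-/

set_option autoImplicit false

namespace Pool.Agent.H86.ZN

open Finset Pool.Agent.H14RC Pool.Agent.H86.FM

theorem cell_exists {K m : ℕ} (hm : 1 ≤ m) {x : ℝ} (h0 : 1 ≤ (m : ℝ) ^ (K + 1) * x) :
    ∃ p i : ℕ, 1 ≤ p ∧ i ≤ K ∧ (p : ℝ) ^ (K + 1 - i) * ((p : ℝ) + 1) ^ i ≤ (m : ℝ) ^ (K + 1) * x ∧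
      (m : ℝ) ^ (K + 1) * x < (p : ℝ) ^ (K - i) * ((p : ℝ) + 1) ^ (i + 1) := by
  classical
  obtain ⟨Y, hY⟩ : ∃ Y, Y = (m : ℝ) ^ (K + 1) * x := ⟨_, rfl⟩
  rw [← hY] at h0 ⊢
  have hex : ∃ n : ℕ, Y < ((n : ℝ) + 1) ^ (K + 1) := by
    obtain ⟨n, hn⟩ := exists_nat_gt Y
    refine ⟨n, hn.trans_le ?_⟩
    have h1 : (1 : ℝ) ≤ (n : ℝ) + 1 := by
      have : (0 : ℝ) ≤ n := Nat.cast_nonneg n
      linarith
    have h2 : ((n : ℝ) + 1) ^ 1 ≤ ((n : ℝ) + 1) ^ (K + 1) := pow_le_pow_right₀ h1 (by omega)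
    rw [pow_one] at h2
    linarith
  set p := Nat.find hex with hp
  have hp1 : Y < ((p : ℝ) + 1) ^ (K + 1) := Nat.find_spec hex
  have hp0 : 1 ≤ p := by
    by_contra hcon
    have h1 : p = 0 := by omega
    rw [h1] at hp1
    simp only [Nat.cast_zero, zero_add, one_pow] at hp1
    linarith
  have hp2 : (p : ℝ) ^ (K + 1) ≤ Y := by
    have h1 := Nat.find_min hex (m := p - 1) (by omega)
    rw [not_lt] at h1
    have h2 : (((p - 1 : ℕ) : ℝ) + 1) = p := by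
      rw [Nat.cast_sub hp0]
      push_cast
      ring
    rwa [h2] at h1
  have hex2 : ∃ i : ℕ, i ≤ K ∧ Y < (p : ℝ) ^ (K - i) * ((p : ℝ) + 1) ^ (i + 1) := by
    refine ⟨K, le_refl K, ?_⟩
    rw [Nat.sub_self, pow_zero, one_mul]
    exact hp1
  set i := Nat.find hex2 with hi
  obtain ⟨hi1, hi2⟩ := Nat.find_spec hex2
  refine ⟨p, i, hp0, hi1, ?_, hi2⟩
  rcases Nat.eq_zero_or_pos i with h1 | h1
  · rw [h1, pow_zero, mul_one]
    exact hp2
  · have h2 := Nat.find_min hex2 (m := i - 1) (by omega)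
    by_contra hcon
    push Not at hcon
    apply h2
    refine ⟨by omega, ?_⟩
    have h3 : K - (i - 1) = K + 1 - i := by omega
    have h4 : i - 1 + 1 = i := by omega
    rw [h3, h4]
    exact hcon

theorem final_zero {α β : ℝ} (h1 : 1 / 4 < α) (h2 : β < 3 / 4) :
    ∃ M : ℕ, ∀ m : ℕ, M ≤ m → ∀ x : ℝ, α ≤ x → x ≤ β → ∀ p : ℕ, (p : ℝ) ≤ m * x → m * x ≤ p + 1 →
      F m x = 1 + F m (m * x - p) / m := by
  obtain ⟨A, hA⟩ := exists_nat_gt (5 / (α - 1 / 4))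
  obtain ⟨B, hB⟩ := exists_nat_gt (5 / (3 / 4 - β))
  refine ⟨max 1000000 (max A B), fun m hm x hα hβ p hp0 hp1 => ?_⟩
  have hm1 : 1000000 ≤ m := (le_max_left _ _).trans hm
  have hm0 : (0 : ℝ) < m := by
    have : 0 < m := by omega
    exact_mod_cast this
  have hmA : (A : ℝ) ≤ m := by exact_mod_cast (le_max_left A B).trans ((le_max_right _ _).trans hm)
  have hmB : (B : ℝ) ≤ m := by exact_mod_cast (le_max_right A B).trans ((le_max_right _ _).trans hm)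
  have e1 : 5 / (m : ℝ) < α - 1 / 4 := by
    rw [div_lt_iff₀ hm0]
    have h3 : 5 / (α - 1 / 4) < m := hA.trans_le hmA
    rw [div_lt_iff₀ (by linarith)] at h3
    linarith
  have e2 : 5 / (m : ℝ) < 3 / 4 - β := by
    rw [div_lt_iff₀ hm0]
    have h3 : 5 / (3 / 4 - β) < m := hB.trans_le hmB
    rw [div_lt_iff₀ (by linarith)] at h3
    linarith
  have h3 := Pool.Agent.H86.Z1.mid hm1 (by linarith : 1 / 4 + 5 / (m : ℝ) ≤ x) (by linarith)
  have h4 := Ft_add_int m ((m : ℝ) * x - p) (p : ℤ)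
  have h5 : (m : ℝ) * x - p + ((p : ℤ) : ℝ) = m * x := by
    push_cast
    ring
  have h6 := Ft_of_mem (m := m) (x := (m : ℝ) * x - p) (by omega) (by linarith) (by linarith)
  rw [h5, h6] at h4
  rw [h3, h4]

end Pool.Agent.H86.ZN
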